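import Mathlib

/-!
# Combinations of odd functions of constant parity

The combinatorial part of `S_SUMA` of `Pool.Agent.N178.HX.StmE`.
-/

namespace Pool.Agent.N152.HX3

open Finset

noncomputable section

open Classical in
theorem sum_sign (n a : ℕ) (ha : a ≤ n) :
    ∑ t : Fin n, (if (t : ℕ) < a then (1 : ℤ) else -1) = 2 * a - n := by
  have h1 : ∀ t : Fin n, (if (t : ℕ) < a then (1 : ℤ) else -1) =
      2 * (if (t : ℕ) < a then (1 : ℤ) else 0) - 1 := by
    intro t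
    split_ifs <;> norm_num
  rw [Finset.sum_congr rfl fun t _ => h1 t, Finset.sum_sub_distrib, ← Finset.mul_sum,
    Finset.sum_boole]
  have h2 : (univ.filter fun t : Fin n => (t : ℕ) < a).card = a := by
    rw [Fin.card_filter_val_lt]
    exact min_eq_right ha
  rw [h2]
  simp

open Classical in
/-- An odd function of the parity of `n` with absolute value at most `n` is a sum of `n` odd
functions with values `1` and `-1`. -/
theorem odd_dec {E : Type} [Finite E] (c : E → E) (hcc : ∀ φ, c (c φ) = φ) (hc : ∀ φ, c φ ≠ φ)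
    (F : E → ℤ) (hF : ∀ φ, F (c φ) = -F φ) (n : ℕ) (hn : ∀ φ, |F φ| ≤ n)
    (hp : ∀ φ, Even (F φ + n)) :
    ∃ Φ : Fin n → Set E, (∀ t φ, φ ∈ Φ t ↔ c φ ∉ Φ t) ∧
      ∀ φ, F φ = ∑ t, if φ ∈ Φ t then (1 : ℤ) else -1 := by
  obtain ⟨m, ⟨e⟩⟩ := Finite.exists_equiv_fin E
  have hne : ∀ φ, e φ ≠ e (c φ) := fun φ h => hc φ (e.injective h).symm
  -- the half of the value
  have hex : ∀ φ, ∃ a : ℕ, a ≤ n ∧ F φ = 2 * a - n := by
    intro φ
    obtain ⟨r, hr⟩ := hp φ
    have h1 := abs_le.1 (hn φ)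
    refine ⟨r.toNat, by omega, by omega⟩
  choose a ha hFa using hex
  have hac : ∀ φ, (a (c φ) : ℤ) = n - a φ := by
    intro φ
    have h1 := hFa φ
    have h2 := hFa (c φ)
    have h3 := hF φ
    omega
  let Φ : Fin n → Set E := fun t => {φ | if e φ < e (c φ) then (t : ℕ) < a φ else
    ¬ (t : ℕ) < a (c φ)}
  have hmem : ∀ t φ, φ ∈ Φ t ↔ if e φ < e (c φ) then (t : ℕ) < a φ else ¬ (t : ℕ) < a (c φ) :=
    fun t φ => Iff.rfl
  refine ⟨Φ, fun t φ => ?_, fun φ => ?_⟩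
  · rw [hmem, hmem, hcc]
    rcases lt_or_gt_of_ne (hne φ) with h | h
    · rw [if_pos h, if_neg (not_lt.2 h.le)]
      exact not_not.symm
    · rw [if_neg (not_lt.2 h.le), if_pos h]
  · rcases lt_or_gt_of_ne (hne φ) with h | h
    · rw [hFa φ, ← sum_sign n _ (ha φ)]
      refine Finset.sum_congr rfl fun t _ => ?_
      have h2 := hmem t φ
      rw [if_pos h] at h2
      by_cases h3 : (t : ℕ) < a φ
      · rw [if_pos h3, if_pos (h2.2 h3)]
      · rw [if_neg h3, if_neg fun h4 => h3 (h2.1 h4)]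
    · have h5 : F φ = -∑ t : Fin n, (if (t : ℕ) < a (c φ) then (1 : ℤ) else -1) := by
        rw [sum_sign n _ (ha (c φ))]
        have h3 := hac φ
        have h4 := hFa φ
        omega
      rw [h5, ← Finset.sum_neg_distrib]
      refine Finset.sum_congr rfl fun t _ => ?_
      have h2 := hmem t φ
      rw [if_neg (not_lt.2 h.le)] at h2
      by_cases h3 : (t : ℕ) < a (c φ)
      · rw [if_pos h3, if_neg fun h4 => (h2.1 h4) h3]
      · rw [if_neg h3, if_pos (h2.2 h3), neg_neg]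

open Classical in
/-- The abstract form of the sums property. -/
theorem core {K : Type} [Fintype K] (E : K → Type) [∀ k, Fintype (E k)]
    (c : ∀ k, E k → E k) (hcc : ∀ k φ, c k (c k φ) = φ) (hc : ∀ k φ, c k φ ≠ φ)
    {S : Type} [Nonempty S] (r : ∀ k, S → E k) (hr : ∀ φ : ∀ k, E k, ∃ σ, ∀ k, r k σ = φ k)
    (cS : S → S) (hrc : ∀ k σ, r k (cS σ) = c k (r k σ))
    {I : Type} [Fintype I] (f : I → S → ℤ) (m : I → ℤ)
    (hodd : ∀ i σ, f i (cS σ) = -f i σ) (hpar : ∀ i σ τ, Even (f i σ - f i τ))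
    (hd : ∀ i, (∀ σ, f i σ = 0) ∨ ∃ k, ∀ σ τ, r k σ = r k τ → f i σ = f i τ)
    (N : ℕ) (hN : ∀ σ, |∑ i, m i * f i σ| ≤ N) :
    ∃ (n : K → ℕ) (Φ : ∀ k, Fin (n k) → Set (E k)),
      (∀ k t φ, φ ∈ Φ k t ↔ c k φ ∉ Φ k t) ∧ ∑ k, n k ≤ N ∧
      ∀ σ, ∑ i, m i * f i σ = ∑ k, ∑ t, if r k σ ∈ Φ k t then (1 : ℤ) else -1 := by
  obtain ⟨σ₀⟩ := ‹Nonempty S›
  -- the class of an index
  have hκ : ∀ i, ∃ o : Option K, (o = none ∧ ∀ σ, f i σ = 0) ∨
      ∃ k, o = some k ∧ ∀ σ τ, r k σ = r k τ → f i σ = f i τ := by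
    intro i
    rcases hd i with h | ⟨k, h⟩
    · exact ⟨none, Or.inl ⟨rfl, h⟩⟩
    · exact ⟨some k, Or.inr ⟨k, rfl, h⟩⟩
  choose κ hκ using hκ
  have hκ0 : ∀ i, κ i = none → ∀ σ, f i σ = 0 := by
    intro i hi
    rcases hκ i with ⟨_, h⟩ | ⟨k, h, _⟩
    · exact h
    · rw [hi] at h; cases h
  have hκ1 : ∀ i k, κ i = some k → ∀ σ τ, r k σ = r k τ → f i σ = f i τ := by
    intro i k hi
    rcases hκ i with ⟨h, _⟩ | ⟨k', h, h'⟩
    · rw [hi] at h; cases h
    · rw [hi] at h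
      cases h
      exact h'
  -- lifts
  have hs : ∀ k (φ : E k), ∃ σ, r k σ = φ := by
    intro k φ
    obtain ⟨σ, h⟩ := hr (Function.update (fun k => r k σ₀) k φ)
    refine ⟨σ, ?_⟩
    rw [h k, Function.update_self]
  choose s hs using hs
  let F : ∀ k, E k → ℤ := fun k φ => ∑ i ∈ univ.filter (fun i => κ i = some k), m i * f i (s k φ)
  have hFdef : ∀ k φ, F k φ = ∑ i ∈ univ.filter (fun i => κ i = some k), m i * f i (s k φ) :=
    fun _ _ => rfl
  have hFr : ∀ k σ, F k (r k σ) = ∑ i ∈ univ.filter (fun i => κ i = some k), m i * f i σ := by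
    intro k σ
    rw [hFdef]
    refine Finset.sum_congr rfl fun i hi => ?_
    rw [hκ1 i k (Finset.mem_filter.1 hi).2 (s k (r k σ)) σ (hs k _)]
  have hsum : ∀ σ, ∑ i, m i * f i σ = ∑ k, F k (r k σ) := by
    intro σ
    rw [Finset.sum_congr rfl fun k _ => hFr k σ]
    have h1 : ∀ k, ∑ i ∈ univ.filter (fun i => κ i = some k), m i * f i σ =
        ∑ i, if κ i = some k then m i * f i σ else 0 := fun k => Finset.sum_filter _ _
    rw [Finset.sum_congr rfl fun k _ => h1 k, Finset.sum_comm]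
    refine Finset.sum_congr rfl fun i _ => ?_
    cases hi : κ i with
    | none => simp [hκ0 i hi σ]
    | some k =>
      have h2 : ∀ k', (if some k = some k' then m i * f i σ else 0) =
          if k' = k then m i * f i σ else 0 := by
        intro k'
        by_cases h : k' = k
        · rw [if_pos h, if_pos (by rw [h])]
        · rw [if_neg h, if_neg (fun h' => h (Option.some.inj h').symm)]
      rw [Finset.sum_congr rfl fun k' _ => h2 k', Finset.sum_ite_eq' univ k]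
      simp
  have hFodd : ∀ k φ, F k (c k φ) = -F k φ := by
    intro k φ
    obtain ⟨σ, rfl⟩ : ∃ σ, r k σ = φ := ⟨s k φ, hs k φ⟩
    rw [← hrc, hFr, hFr, ← Finset.sum_neg_distrib]
    refine Finset.sum_congr rfl fun i _ => ?_
    rw [hodd]
    ring
  have hFpar : ∀ k φ ψ, Even (F k φ - F k ψ) := by
    intro k φ ψ
    rw [hFdef, hFdef, ← Finset.sum_sub_distrib]
    refine Finset.even_sum _ fun i _ => ?_
    rw [← mul_sub]
    exact (hpar i _ _).mul_left _
  -- the maxima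
  have hmax : ∀ k, ∃ φ : E k, ∀ ψ, |F k ψ| ≤ F k φ := by
    intro k
    have : Nonempty (E k) := ⟨r k σ₀⟩
    obtain ⟨φ, hφ⟩ := Finite.exists_max fun φ => |F k φ|
    rcases abs_choice (F k φ) with h | h
    · exact ⟨φ, fun ψ => (hφ ψ).trans h.le⟩
    · exact ⟨c k φ, fun ψ => (hφ ψ).trans (by rw [h, hFodd])⟩
  choose φ₁ hφ₁ using hmax
  have hpos : ∀ k, 0 ≤ F k (φ₁ k) := fun k => (abs_nonneg _).trans (hφ₁ k (φ₁ k))
  let n : K → ℕ := fun k => (F k (φ₁ k)).toNat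
  have hn : ∀ k, (n k : ℤ) = F k (φ₁ k) := fun k => Int.toNat_of_nonneg (hpos k)
  have hdec : ∀ k, ∃ Φ : Fin (n k) → Set (E k), (∀ t φ, φ ∈ Φ t ↔ c k φ ∉ Φ t) ∧
      ∀ φ, F k φ = ∑ t, if φ ∈ Φ t then (1 : ℤ) else -1 := by
    intro k
    refine odd_dec (c k) (hcc k) (hc k) (F k) (hFodd k) (n k) (fun φ => ?_) fun φ => ?_
    · rw [hn]; exact hφ₁ k φ
    · rw [hn]
      have h1 := hFpar k φ (φ₁ k)
      have h2 : F k φ + F k (φ₁ k) = (F k φ - F k (φ₁ k)) + 2 * F k (φ₁ k) := by ring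
      rw [h2]
      exact h1.add (even_two_mul _)
  choose Φ hΦ1 hΦ2 using hdec
  refine ⟨n, Φ, hΦ1, ?_, fun σ => ?_⟩
  · obtain ⟨σ, hσ⟩ := hr φ₁
    have h1 := hN σ
    rw [hsum σ] at h1
    have h2 : ∑ k, F k (r k σ) = ((∑ k, n k : ℕ) : ℤ) := by
      push_cast
      refine Finset.sum_congr rfl fun k _ => ?_
      rw [hσ k, hn]
    rw [h2, abs_of_nonneg (by positivity)] at h1
    exact_mod_cast h1
  · rw [hsum σ]
    exact Finset.sum_congr rfl fun k _ => hΦ2 k _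

end

end Pool.Agent.N152.HX3
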