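import Mathlib
import Pool.Agent.N178.HX.StmE
import Pool.Agent.N152.HX3.Comb

/-!
# The sums property: proof of `S_SUMA` of `Pool.Agent.N178.HX.StmE`
-/

set_option linter.unusedSectionVars false

namespace Pool.Agent.N152.HX3

open Finset Matrix Module NumberField Pool.Agent.W437.HC Pool.Agent.W437.HD Pool.Agent.Y90
open Pool.Agent.H204R3.CM (IsCMType)

noncomputable section

theorem tr_cc {g : ℕ} {Z : Matrix (Fin g) (Fin g) ℂ} (U : Submodule ℂ (Fin g ⊕ Fin g → ℂ)) :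
    tr Z (cjS cc U) = -tr Z U := by
  unfold tr
  rw [pd_cc, qd_cc]
  ring

theorem tr_par {g : ℕ} {Z : Matrix (Fin g) (Fin g) ℂ} (h : PM Z)
    {U : Submodule ℂ (Fin g ⊕ Fin g → ℂ)} (hU : Stab (Pool.Agent.Y90.LZ Z) U)
    (σ τ : ℂ ≃+* ℂ) : Even (tr Z (cjS σ U) - tr Z (cjS τ U)) := by
  have h1 := pd_add_qd h (hU.cj gal_LZ σ)
  have h2 := pd_add_qd h (hU.cj gal_LZ τ)
  rw [finrank_cjS] at h1 h2
  unfold tr
  exact ⟨(pd Z (cjS σ U) : ℤ) - pd Z (cjS τ U), by omega⟩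

theorem conj_ne {E : Type} [Field E] [NumberField E] [IsCMField E] (φ : E →+* ℂ) :
    ComplexEmbedding.conjugate φ ≠ φ := by
  intro h
  have h1 : (InfinitePlace.mk φ).IsComplex := IsTotallyComplex.isComplex _
  rw [InfinitePlace.isComplex_mk_iff] at h1
  exact h1 (ComplexEmbedding.isReal_iff.2 h)

theorem t_SUMA : Pool.Agent.N178.HX.S_SUMA := by
  classical
  intro g Z hZ K _ _ L _ _ _ j hInd hd hline I _ U m N hU hN
  obtain ⟨n, Φ, h1, h2, h3⟩ := core (fun k => L k →+* ℂ)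
    (fun k φ => ComplexEmbedding.conjugate φ)
    (fun k φ => ComplexEmbedding.involutive_conjugate (L k) φ)
    (fun k φ => conj_ne φ) (S := ℂ ≃+* ℂ) (fun k σ => (σ : ℂ →+* ℂ).comp (j k))
    (fun φ => hInd j φ) (fun σ => σ.trans cc) (fun k σ => by
      ext x
      rfl)
    (fun i σ => tr Z (cjS σ (U i))) m (fun i σ => by
      rw [← cjS_trans, tr_cc])
    (fun i σ τ => tr_par hZ (hU i).2.1 σ τ)
    (fun i => by
      rcases hd (U i) (hU i) with h | ⟨k, h⟩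
      · exact Or.inl h
      · refine Or.inr ⟨k, fun σ τ hστ => h σ τ fun x => ?_⟩
        exact congrArg (fun f : L k →+* ℂ => f x) hστ) N hN
  have hW : ∀ x : (k : K) × Fin (n k), ∃ W, IrS (Pool.Agent.Y90.LZ Z) W ∧ finrank ℂ W = 1 ∧
      ∀ σ : ℂ ≃+* ℂ,
      ((σ : ℂ →+* ℂ).comp (j x.1) ∈ Φ x.1 x.2 → tr Z (cjS σ W) = 1) ∧
      ((σ : ℂ →+* ℂ).comp (j x.1) ∉ Φ x.1 x.2 → tr Z (cjS σ W) = -1) :=
    fun x => hline x.1 (Φ x.1 x.2) fun φ => h1 x.1 x.2 φ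
  choose W hW1 hW2 hW3 using hW
  refine ⟨(k : K) × Fin (n k), inferInstance, W, fun i => ⟨hW1 i, hW2 i⟩, ?_, fun σ => ?_⟩
  · rw [Fintype.card_sigma]
    simpa using h2
  · rw [h3 σ, Fintype.sum_sigma]
    refine Finset.sum_congr rfl fun k _ => Finset.sum_congr rfl fun t _ => ?_
    have h4 := hW3 ⟨k, t⟩ σ
    by_cases h5 : (σ : ℂ →+* ℂ).comp (j k) ∈ Φ k t
    · rw [if_pos h5]
      exact h4.1 h5
    · rw [if_neg h5]
      exact h4.2 h5

end

end Pool.Agent.N152.HX3
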